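import Pool.Agent.U139.MV.PP
import Pool.Agent.U398.MV.Stm3

set_option autoImplicit false

/-!
# Project MV3, package PPX: mean square of the prime side without the primes up to `X`
-/

namespace Pool.Agent.U6.MV3.PPX

open MeasureTheory Filter Topology Set Complex Pool.Agent.U139.MV.PP

noncomputable section

open ArithmeticFunction (vonMangoldt)

/-- majorant for the sum over the higher prime powers -/
def G (q : ℕ × ℕ) : ℝ := (Real.log q.1 ^ 2 / (q.1 : ℝ) ^ 2) * (1 / 2) ^ q.2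

lemma G_nonneg (q : ℕ × ℕ) : 0 ≤ G q := by
  unfold G; positivity

lemma log_sq_le (n : ℕ) : Real.log n ^ 2 / (n : ℝ) ^ 2 ≤ 16 * (1 / (n : ℝ) ^ (3 / 2 : ℝ)) := by
  rcases Nat.eq_zero_or_pos n with rfl | hn
  · simp
  have hm : (0 : ℝ) < n := by exact_mod_cast hn
  have hm1 : (1 : ℝ) ≤ n := by exact_mod_cast hn
  have h1 := Real.log_le_rpow_div hm.le (by norm_num : (0 : ℝ) < 1 / 4)
  have h0 : 0 ≤ Real.log n := Real.log_nonneg hm1
  have h2 : Real.log n ^ 2 ≤ 16 * (n : ℝ) ^ (1 / 2 : ℝ) := by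
    calc Real.log n ^ 2 ≤ ((n : ℝ) ^ (1 / 4 : ℝ) / (1 / 4)) ^ 2 := by gcongr
      _ = 16 * ((n : ℝ) ^ (1 / 4 : ℝ) * (n : ℝ) ^ (1 / 4 : ℝ)) := by ring
      _ = 16 * (n : ℝ) ^ (1 / 2 : ℝ) := by
          rw [← Real.rpow_add hm]; norm_num
  have h3 : (n : ℝ) ^ (1 / 2 : ℝ) / (n : ℝ) ^ 2 = 1 / (n : ℝ) ^ (3 / 2 : ℝ) := by
    have h4 : 1 / (n : ℝ) ^ (3 / 2 : ℝ) = (n : ℝ) ^ (-(3 / 2) : ℝ) := by
      rw [Real.rpow_neg hm.le, one_div]
    rw [h4, ← Real.rpow_natCast (n : ℝ) 2, ← Real.rpow_sub hm]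
    norm_num
  calc Real.log n ^ 2 / (n : ℝ) ^ 2 ≤ 16 * (n : ℝ) ^ (1 / 2 : ℝ) / (n : ℝ) ^ 2 := by gcongr
    _ = 16 * ((n : ℝ) ^ (1 / 2 : ℝ) / (n : ℝ) ^ 2) := by ring
    _ = _ := by rw [h3]

lemma G_summable : Summable G := by
  have h1 : Summable fun n : ℕ => Real.log n ^ 2 / (n : ℝ) ^ 2 :=
    Summable.of_nonneg_of_le (fun n => by positivity) log_sq_le (rpow_summable.mul_left 16)
  have h2 : Summable fun k : ℕ => ((1 : ℝ) / 2) ^ k := summable_geometric_two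
  exact h1.mul_of_nonneg h2 (fun n => by positivity) (fun n => by positivity)

lemma np_sum (s : Finset ℕ) (hs : ∀ n ∈ s, ¬ n.Prime) :
    ∑ n ∈ s, vonMangoldt n ^ 2 / n ≤ ∑' q, G q := by
  classical
  have hex : ∀ n : ℕ, ∃ q : ℕ × ℕ, IsPrimePow n → q.1.Prime ∧ 0 < q.2 ∧ q.1 ^ q.2 = n := by
    intro n
    by_cases h : IsPrimePow n
    · obtain ⟨p, k, hp, hk, he⟩ := (isPrimePow_nat_iff n).1 h
      exact ⟨(p, k), fun _ => ⟨hp, hk, he⟩⟩
    · exact ⟨(0, 0), fun h' => absurd h' h⟩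
  choose e he using hex
  set s' := s.filter fun n => IsPrimePow n with hs'
  have h1 : ∑ n ∈ s, vonMangoldt n ^ 2 / n = ∑ n ∈ s', vonMangoldt n ^ 2 / (n : ℝ) := by
    rw [hs', Finset.sum_filter]
    apply Finset.sum_congr rfl
    intro n _
    split_ifs with h
    · rfl
    · rw [ArithmeticFunction.vonMangoldt_eq_zero_iff.2 h]; simp
  have h2 : ∀ n ∈ s', (e n).1.Prime ∧ 2 ≤ (e n).2 ∧ (e n).1 ^ (e n).2 = n := by
    intro n hn
    rw [hs', Finset.mem_filter] at hn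
    obtain ⟨hp, hk, hq⟩ := he n hn.2
    refine ⟨hp, ?_, hq⟩
    by_contra hlt
    have h : (e n).2 = 1 := by omega
    rw [h, pow_one] at hq
    exact hs n hn.1 (hq ▸ hp)
  have h3 : ∀ n ∈ s', vonMangoldt n ^ 2 / (n : ℝ) ≤ G ((e n).1, (e n).2 - 2) := by
    intro n hn
    obtain ⟨hp, hk, hq⟩ := h2 n hn
    obtain ⟨j, hj⟩ := Nat.exists_eq_add_of_le hk
    have hL : vonMangoldt n = Real.log (e n).1 := by
      conv_lhs => rw [← hq]
      rw [ArithmeticFunction.vonMangoldt_apply_pow (by omega : (e n).2 ≠ 0),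
        ArithmeticFunction.vonMangoldt_apply_prime hp]
    have hn' : (n : ℝ) = ((e n).1 : ℝ) ^ 2 * ((e n).1 : ℝ) ^ j := by
      rw [← pow_add, ← hj]
      exact_mod_cast hq.symm
    have hp2 : (2 : ℝ) ≤ (e n).1 := by exact_mod_cast hp.two_le
    have hj' : (e n).2 - 2 = j := by omega
    rw [hL, hn', hj']
    unfold G
    have h4 : (2 : ℝ) ^ j ≤ ((e n).1 : ℝ) ^ j := by gcongr
    have h5 : (1 : ℝ) / ((e n).1 : ℝ) ^ j ≤ (1 / 2) ^ j := by
      rw [one_div_pow]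
      exact one_div_le_one_div_of_le (by positivity) h4
    calc Real.log (e n).1 ^ 2 / (((e n).1 : ℝ) ^ 2 * ((e n).1 : ℝ) ^ j)
        = Real.log (e n).1 ^ 2 / ((e n).1 : ℝ) ^ 2 * (1 / ((e n).1 : ℝ) ^ j) := by
          rw [div_mul_div_comm, mul_one]
      _ ≤ _ := mul_le_mul_of_nonneg_left h5 (by positivity)
  have hinj : Set.InjOn (fun n => ((e n).1, (e n).2 - 2)) (s' : Set ℕ) := by
    intro n hn m hm hnm
    obtain ⟨-, hk, hq⟩ := h2 n hn
    obtain ⟨-, hk', hq'⟩ := h2 m hm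
    have h6 := (Prod.mk.inj hnm).1
    have h7 := (Prod.mk.inj hnm).2
    have h8 : (e n).2 = (e m).2 := by omega
    rw [← hq, ← hq', h6, h8]
  rw [h1]
  refine (Finset.sum_le_sum h3).trans ?_
  rw [← Finset.sum_image (f := G) hinj]
  exact G_summable.sum_le_tsum _ (fun q _ => G_nonneg q)

lemma prime_term {X n : ℕ} {u : ℝ} (hX : 2 ≤ X) (_hu0 : 0 ≤ u) (hu : u ≤ Real.log X / 2) (hn : X < n) :
    aa u n ^ 2 ≤ (2 * Real.exp (9 / 4)) * (1 / (n : ℝ) ^ (3 / 2 : ℝ)) := by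
  have hX0 : (0 : ℝ) < X := by exact_mod_cast (by omega : 0 < X)
  have hm : (0 : ℝ) < n := by exact_mod_cast (by omega : 0 < n)
  have hXn : (X : ℝ) ≤ n := by exact_mod_cast hn.le
  have hm1 : (1 : ℝ) ≤ n := by exact_mod_cast (by omega : 1 ≤ n)
  have hlog : Real.log X ≤ Real.log n := Real.log_le_log hX0 hXn
  set L := Real.log n with hL
  have hL0 : 0 ≤ L := Real.log_nonneg hm1
  rw [aa_sq, ← hL]
  have hV : 0 ≤ vonMangoldt n := ArithmeticFunction.vonMangoldt_nonneg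
  have hV2 : vonMangoldt n ≤ L := ArithmeticFunction.vonMangoldt_le_log
  have h1 : (1 : ℝ) / (n : ℝ) ^ (3 / 2 : ℝ) = (n : ℝ)⁻¹ * Real.exp (-(L / 2)) := by
    rw [Real.rpow_def_of_pos hm, one_div, ← Real.exp_neg, ← hL]
    have : (n : ℝ)⁻¹ = Real.exp (-L) := by rw [Real.exp_neg, hL, Real.exp_log hm]
    rw [this, ← Real.exp_add]
    congr 1; ring
  have h2 : vonMangoldt n ^ 2 ≤ 2 * Real.exp L := by
    have h3 : L ^ 2 ≤ 2 * Real.exp L := by
      have := Real.quadratic_le_exp_of_nonneg hL0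
      nlinarith
    calc vonMangoldt n ^ 2 ≤ L ^ 2 := by gcongr
      _ ≤ _ := h3
  have h4 : Real.exp (-(u - L) ^ 2) ≤ Real.exp (-(L ^ 2 / 4)) := by
    apply Real.exp_le_exp.mpr
    have h5 : L / 2 ≤ L - u := by linarith
    nlinarith
  calc vonMangoldt n ^ 2 / n * Real.exp (-(u - L) ^ 2)
      ≤ (2 * Real.exp L) / n * Real.exp (-(L ^ 2 / 4)) := by gcongr
    _ = 2 * (n : ℝ)⁻¹ * (Real.exp L * Real.exp (-(L ^ 2 / 4))) := by
        rw [div_eq_mul_inv]; ring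
    _ ≤ 2 * (n : ℝ)⁻¹ * (Real.exp (9 / 4) * Real.exp (-(L / 2))) := by
        apply mul_le_mul_of_nonneg_left _ (by positivity)
        rw [← Real.exp_add, ← Real.exp_add, Real.exp_le_exp]
        nlinarith [sq_nonneg (L - 3)]
    _ = _ := by rw [h1]; ring

/-- the constant of the diagonal -/
def Cd : ℝ := Real.exp 1 * (4 * K0) + ∑' q, G q + (2 * Real.exp (9 / 4)) * ∑' n : ℕ, 1 / (n : ℝ) ^ (3 / 2 : ℝ)

lemma parts_nonneg : 0 ≤ ∑' q, G q ∧ 0 ≤ ∑' n : ℕ, 1 / (n : ℝ) ^ (3 / 2 : ℝ) :=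
  ⟨tsum_nonneg G_nonneg, tsum_nonneg fun n => by positivity⟩

lemma Cd_pos : 0 < Cd := by
  have h := parts_nonneg
  have := K0_pos
  have h1 := h.1
  have h2 := h.2
  unfold Cd
  positivity

lemma diag {X : ℕ} {u : ℝ} (hX : 2 ≤ X) (hu : 0 ≤ u) (s : Finset ℕ)
    (hs : ∀ n ∈ s, ¬ (n ≤ X ∧ n.Prime)) :
    ∑ n ∈ s, aa u n ^ 2 ≤ Cd * (1 + if u ≤ Real.log X / 2 then 0 else u) := by
  have h := parts_nonneg
  have hK := K0_pos
  have h1 := h.1
  have h2 := h.2
  split_ifs with hc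
  · rw [add_zero, mul_one, ← Finset.sum_filter_add_sum_filter_not s Nat.Prime]
    have h3 : ∑ n ∈ s.filter Nat.Prime, aa u n ^ 2 ≤
        (2 * Real.exp (9 / 4)) * ∑' n : ℕ, 1 / (n : ℝ) ^ (3 / 2 : ℝ) := by
      calc ∑ n ∈ s.filter Nat.Prime, aa u n ^ 2
          ≤ ∑ n ∈ s.filter Nat.Prime, (2 * Real.exp (9 / 4)) * (1 / (n : ℝ) ^ (3 / 2 : ℝ)) := by
            apply Finset.sum_le_sum
            intro n hn
            rw [Finset.mem_filter] at hn
            have h4 := hs n hn.1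
            exact prime_term hX hu hc (by
              by_contra h5
              exact h4 ⟨not_lt.mp h5, hn.2⟩)
        _ = (2 * Real.exp (9 / 4)) * ∑ n ∈ s.filter Nat.Prime, 1 / (n : ℝ) ^ (3 / 2 : ℝ) := by
            rw [Finset.mul_sum]
        _ ≤ _ := by
            apply mul_le_mul_of_nonneg_left _ (by positivity)
            exact rpow_summable.sum_le_tsum _ (fun n _ => by positivity)
    have h4 : ∑ n ∈ s.filter (fun n => ¬ n.Prime), aa u n ^ 2 ≤ ∑' q, G q := by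
      refine le_trans (Finset.sum_le_sum fun n _ => ?_)
        (np_sum (s.filter fun n => ¬ n.Prime) fun n hn => (Finset.mem_filter.1 hn).2)
      rw [aa_sq]
      have h5 : Real.exp (-(u - Real.log n) ^ 2) ≤ 1 := by
        apply Real.exp_le_one_iff.mpr
        nlinarith [sq_nonneg (u - Real.log n)]
      exact mul_le_of_le_one_right (by positivity) h5
    unfold Cd
    have h6 : 0 ≤ Real.exp 1 * (4 * K0) := by positivity
    linarith
  · have h3 : ∑ n ∈ s, aa u n ^ 2 ≤ Pool.Agent.U398.MV.Vp u := by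
      rw [Vp_eq]
      exact (asq_summable u).sum_le_tsum _ (fun n _ => sq_nonneg _)
    refine (h3.trans (Vp_le hu)).trans ?_
    apply mul_le_mul_of_nonneg_right _ (by linarith)
    unfold Cd
    have h6 : 0 ≤ (2 * Real.exp (9 / 4)) * ∑' n : ℕ, 1 / (n : ℝ) ^ (3 / 2 : ℝ) := by positivity
    linarith

lemma Pq_eq (X : ℕ) (u t : ℝ) : Pool.Agent.U398.MV.Pq X u t = Pool.Agent.U398.MV.Pf u t -
    ∑ p ∈ (Finset.Icc 1 X).filter Nat.Prime, pt u t p := by
  unfold Pool.Agent.U398.MV.Pq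
  congr 1
  apply Finset.sum_congr rfl
  intro p hp
  have hp' := (Finset.mem_filter.1 hp).2
  unfold pt
  rw [ArithmeticFunction.vonMangoldt_apply_prime hp']
  push_cast
  rw [div_eq_mul_inv]
  ring

lemma Pq_cont (X : ℕ) : Continuous fun p : ℝ × ℝ => Pool.Agent.U398.MV.Pq X p.1 p.2 := by
  simp_rw [Pq_eq]
  exact Pf_cont.sub (continuous_finsetSum _ fun n _ => pt_cont n)

/-- the allowed `n < N` -/
def sN (X N : ℕ) : Finset ℕ := (Finset.range N).filter fun n => ¬ (n ≤ X ∧ n.Prime)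

lemma sN_sum (X : ℕ) (u t : ℝ) (N : ℕ) (hN : X < N) : ∑ n ∈ sN X N, pt u t n =
    ∑ n ∈ Finset.range N, pt u t n - ∑ p ∈ (Finset.Icc 1 X).filter Nat.Prime, pt u t p := by
  have h1 : (Finset.range N).filter (fun n => n ≤ X ∧ n.Prime) = (Finset.Icc 1 X).filter Nat.Prime := by
    ext n
    simp only [Finset.mem_filter, Finset.mem_range, Finset.mem_Icc]
    constructor
    · rintro ⟨_, h2, h3⟩
      exact ⟨⟨h3.one_lt.le, h2⟩, h3⟩
    · rintro ⟨⟨_, h2⟩, h3⟩
      exact ⟨by omega, h2, h3⟩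
  rw [← h1, ← Finset.sum_filter_add_sum_filter_not (Finset.range N) (fun n => n ≤ X ∧ n.Prime)]
  unfold sN
  ring

lemma mvq (X : ℕ) (u A B D : ℝ) (hAB : A ≤ B)
    (hD : ∀ s : Finset ℕ, (∀ n ∈ s, ¬ (n ≤ X ∧ n.Prime)) → ∑ n ∈ s, aa u n ^ 2 ≤ D) :
    (∫ t in A..B, ‖Pool.Agent.U398.MV.Pq X u t‖ ^ 2) ≤
      (B - A) * D + 4 * ((∑' n, aa u n) * ∑' n : ℕ, (n : ℝ) * aa u n) := by
  have hs : ∀ t, Summable (pt u t) := fun t =>
    Summable.of_norm (by simp_rw [pt_norm]; exact aa_summable u)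
  have h1 : Tendsto (fun N : ℕ => ∫ t in A..B, ‖∑ n ∈ sN X N, pt u t n‖ ^ 2) atTop
      (𝓝 (∫ t in A..B, ‖Pool.Agent.U398.MV.Pq X u t‖ ^ 2)) := by
    apply intervalIntegral.tendsto_integral_filter_of_dominated_convergence
      (bound := fun _ => (∑' n, aa u n) ^ 2)
    · refine Eventually.of_forall fun N => ?_
      apply Continuous.aestronglyMeasurable
      have : ∀ n, Continuous fun t : ℝ => pt u t n := fun n => by unfold pt; fun_prop
      fun_prop
    · refine Eventually.of_forall fun N => Eventually.of_forall fun t _ => ?_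
      rw [Real.norm_of_nonneg (by positivity)]
      have h2 : ‖∑ n ∈ sN X N, pt u t n‖ ≤ ∑' n, aa u n := by
        refine (norm_sum_le _ _).trans ?_
        simp_rw [pt_norm]
        exact (aa_summable u).sum_le_tsum _ (fun n _ => aa_nonneg u n)
      gcongr
    · exact intervalIntegrable_const
    · refine Eventually.of_forall fun t _ => ?_
      rw [Pq_eq]
      have h3 : Tendsto (fun N : ℕ => ∑ n ∈ Finset.range N, pt u t n -
          ∑ p ∈ (Finset.Icc 1 X).filter Nat.Prime, pt u t p) atTop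
          (𝓝 (Pool.Agent.U398.MV.Pf u t - ∑ p ∈ (Finset.Icc 1 X).filter Nat.Prime, pt u t p)) := by
        rw [Pf_eq]
        exact ((hs t).hasSum.tendsto_sum_nat).sub_const _
      have h4 : Tendsto (fun N : ℕ => ∑ n ∈ sN X N, pt u t n) atTop
          (𝓝 (Pool.Agent.U398.MV.Pf u t - ∑ p ∈ (Finset.Icc 1 X).filter Nat.Prime, pt u t p)) := by
        refine h3.congr' ?_
        filter_upwards [eventually_gt_atTop X] with N hN
        exact (sN_sum X u t N hN).symm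
      exact h4.norm.pow 2
  refine le_of_tendsto h1 (Eventually.of_forall fun N => ?_)
  have hm := (abs_le.1 (mv_finite u A B (sN X N))).2
  have h2 := hD (sN X N) (fun n hn => (Finset.mem_filter.1 hn).2)
  have h3 : (B - A) * ∑ n ∈ sN X N, aa u n ^ 2 ≤ (B - A) * D :=
    mul_le_mul_of_nonneg_left h2 (by linarith)
  have h4 := (aa_summable u).sum_le_tsum (sN X N) (fun n _ => aa_nonneg u n)
  have h5 := (naa_summable u).sum_le_tsum (sN X N)
    (fun n _ => mul_nonneg (Nat.cast_nonneg n) (aa_nonneg u n))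
  have h6 : 0 ≤ ∑ n ∈ sN X N, (n : ℝ) * aa u n :=
    Finset.sum_nonneg fun n _ => mul_nonneg (Nat.cast_nonneg n) (aa_nonneg u n)
  have h7 : 0 ≤ ∑' n, aa u n := tsum_nonneg (aa_nonneg u)
  have h8 : (∑ n ∈ sN X N, aa u n) * ∑ n ∈ sN X N, (n : ℝ) * aa u n ≤
      (∑' n, aa u n) * ∑' n : ℕ, (n : ℝ) * aa u n := by gcongr
  linarith

theorem t_PPX : Pool.Agent.U398.MV.S_PPX := by
  set C3 : ℝ := Real.exp (9 / 8) * (4 * K0) with hC3
  set C4 : ℝ := Real.exp (25 / 8) * (4 * K0) with hC4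
  have hK := K0_pos
  have hC30 : 0 < C3 := by positivity
  have hC40 : 0 < C4 := by positivity
  have hCd := Cd_pos
  refine ⟨Cd + 4 * (C3 * C4), 100, by positivity, le_refl _, Pq_cont, ?_⟩
  intro T hT X hX u hu huL
  have hT0 : 0 < T := by linarith
  have hsT : 0 < Real.sqrt T := Real.sqrt_pos.mpr hT0
  have hsq : Real.sqrt T * Real.sqrt T = T := Real.mul_self_sqrt hT0.le
  have hlog1 : Real.log T = 2 * Real.log (Real.sqrt T) := by
    rw [Real.log_sqrt hT0.le]; ring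
  have hlog2 : Real.log (Real.sqrt T) ≤ Real.sqrt T - 1 := Real.log_le_sub_one_of_pos hsT
  have hlog0 : 0 ≤ Real.log T := Real.log_nonneg (by linarith)
  have hs10 : 10 ≤ Real.sqrt T := by
    rw [show (10 : ℝ) = Real.sqrt 100 by
      rw [show (100 : ℝ) = 10 ^ 2 by norm_num, Real.sqrt_sq (by norm_num)]]
    exact Real.sqrt_le_sqrt hT
  have hAB : T + Real.log T ≤ 2 * T - Real.log T := by nlinarith
  set w : ℝ := 1 + if u ≤ Real.log X / 2 then 0 else u with hw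
  have hw1 : 1 ≤ w := by
    rw [hw]; split_ifs <;> linarith
  have h1 := mvq X u (T + Real.log T) (2 * T - Real.log T) (Cd * w) hAB
    (fun s hs => diag hX hu s hs)
  have h2 := aa_tsum u
  have h3 := naa_tsum u
  have h20 : 0 ≤ ∑' n, aa u n := tsum_nonneg (aa_nonneg u)
  have h30 : 0 ≤ ∑' n : ℕ, (n : ℝ) * aa u n :=
    tsum_nonneg fun n => mul_nonneg (Nat.cast_nonneg n) (aa_nonneg u n)
  have h4 : (∑' n, aa u n) * ∑' n : ℕ, (n : ℝ) * aa u n ≤ C3 * C4 * T := by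
    calc (∑' n, aa u n) * ∑' n : ℕ, (n : ℝ) * aa u n
        ≤ (Real.exp (9 / 8) * Real.exp (u / 2) * (4 * K0)) *
          (Real.exp (25 / 8) * Real.exp (3 * u / 2) * (4 * K0)) := by gcongr
      _ = C3 * C4 * (Real.exp (u / 2) * Real.exp (3 * u / 2)) := by rw [hC3, hC4]; ring
      _ ≤ C3 * C4 * T := by
          apply mul_le_mul_of_nonneg_left _ (by positivity)
          rw [← Real.exp_add]
          calc Real.exp (u / 2 + 3 * u / 2) ≤ Real.exp (Real.log T) := by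
                apply Real.exp_le_exp.mpr; linarith
            _ = T := Real.exp_log hT0
  have h5 : (2 * T - Real.log T - (T + Real.log T)) * (Cd * w) ≤ T * (Cd * w) := by
    apply mul_le_mul_of_nonneg_right _ (by positivity)
    linarith
  have h6 : 4 * (C3 * C4 * T) ≤ 4 * (C3 * C4) * T * w := by
    have : 0 ≤ 4 * (C3 * C4) * T := by positivity
    nlinarith
  calc (∫ t in (T + Real.log T)..(2 * T - Real.log T), ‖Pool.Agent.U398.MV.Pq X u t‖ ^ 2)
      ≤ (2 * T - Real.log T - (T + Real.log T)) * (Cd * w) +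
        4 * ((∑' n, aa u n) * ∑' n : ℕ, (n : ℝ) * aa u n) := h1
    _ ≤ T * (Cd * w) + 4 * (C3 * C4) * T * w := by linarith
    _ = (Cd + 4 * (C3 * C4)) * T * w := by ring

end

end Pool.Agent.U6.MV3.PPX
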